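import Pool.Agent.PW.StmtsA

/-!
# Squad PW, row FGZ: the fractions killed by the derivations outside `G`
-/

set_option autoImplicit false

namespace Pool.Agent.PW.H85

open MvPolynomial Pool.Agent.PW
open Pool.Agent.RS (FF io)

variable {E : Type} [Field E] [CharZero E]

/-- in characteristic zero a variable which occurs gives a non-zero derivative -/
theorem pderiv_ne (i : ℕ) (g : MvPolynomial ℕ E) (h : pderiv i g = 0) : i ∉ g.vars := by
  intro hi
  rw [mem_vars_iff_mem_support] at hi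
  obtain ⟨m, hm, hmi⟩ := hi
  have h1 : m - Finsupp.single i 1 + Finsupp.single i 1 = m := by
    refine tsub_add_cancel_of_le ?_
    rw [Finsupp.single_le_iff]
    exact Nat.one_le_iff_ne_zero.mpr (Finsupp.mem_support_iff.mp hmi)
  have h2 := coeff_pderiv (i := i) g (m - Finsupp.single i 1)
  rw [h, h1, coeff_zero] at h2
  have h3 : coeff m g ≠ 0 := mem_support_iff.mp hm
  rcases mul_eq_zero.mp h2.symm with h4 | h4
  · exact h3 h4
  · exact (Nat.cast_add_one_ne_zero _) h4

omit [CharZero E] in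
/-- a polynomial which divides its derivative has derivative zero -/
theorem pderiv_of_dvd (i : ℕ) (b : MvPolynomial ℕ E) (h : b ∣ pderiv i b) : pderiv i b = 0 := by
  by_contra h0
  obtain ⟨c, hc⟩ := h
  have hb : b ≠ 0 := by
    rintro rfl
    exact h0 (map_zero _)
  have hc0 : c ≠ 0 := by
    rintro rfl
    exact h0 (by rw [hc, mul_zero])
  have h1 : degreeOf i b ≤ degreeOf i (pderiv i b) := by
    rw [hc, degreeOf_mul_eq hb hc0]
    exact Nat.le_add_right _ _
  have h2 : ∀ m ∈ (pderiv i b).support, m i + 1 ≤ degreeOf i b := by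
    intro m hm
    have h3 : coeff m (pderiv i b) ≠ 0 := mem_support_iff.mp hm
    rw [coeff_pderiv] at h3
    have h4 : m + Finsupp.single i 1 ∈ b.support := mem_support_iff.mpr (left_ne_zero_of_mul h3)
    have h5 := monomial_le_degreeOf i h4
    rwa [Finsupp.add_apply, Finsupp.single_eq_same] at h5
  obtain ⟨m, hm⟩ := support_nonempty.mpr h0
  have h3 : degreeOf i (pderiv i b) ≤ degreeOf i b - 1 := by
    rw [degreeOf_le_iff]
    intro m' hm'
    have := h2 m' hm'
    omega
  have h4 := h2 m hm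
  omega

omit [CharZero E] in
theorem mem_fg0 (hD : DerStmt) (G : Finset ℕ) {a b : MvPolynomial ℕ E} (hb : b ≠ 0)
    (ha : a.vars ⊆ G) (hbv : b.vars ⊆ G) : FG 0 G (io E a / io E b) := by
  obtain ⟨h1, -, h3⟩ := hD E
  intro i hi
  have hb' : io E b ≠ 0 := by
    intro h
    exact hb ((map_eq_zero_iff _ (IsFractionRing.injective (MvPolynomial ℕ E) (FF E))).mp h)
  rw [h3 _ _ _ hb', h1, h1, pderiv_eq_zero_of_notMem_vars (fun h => hi (ha h)),
    pderiv_eq_zero_of_notMem_vars (fun h => hi (hbv h)), map_zero, mul_zero, mul_zero, sub_zero,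
    zero_div]

theorem fg0_form (hD : DerStmt) (G : Finset ℕ) (f : FF E) (hf : FG 0 G f) :
    ∃ a b : MvPolynomial ℕ E, b ≠ 0 ∧ a.vars ⊆ G ∧ b.vars ⊆ G ∧ f = io E a / io E b := by
  obtain ⟨h1, -, h3⟩ := hD E
  obtain ⟨a, b, hrel, hab⟩ := IsFractionRing.exists_reduced_fraction (A := MvPolynomial ℕ E) f
  have hb : (b : MvPolynomial ℕ E) ≠ 0 := nonZeroDivisors.ne_zero b.2
  have hb' : io E (b : MvPolynomial ℕ E) ≠ 0 := by
    intro h
    exact hb ((map_eq_zero_iff _ (IsFractionRing.injective (MvPolynomial ℕ E) (FF E))).mp h)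
  have hfab : f = io E a / io E b := by
    rw [← hab, IsFractionRing.mk'_eq_div]
  have hkey : ∀ i ∉ G, pderiv i a = 0 ∧ pderiv i (b : MvPolynomial ℕ E) = 0 := by
    intro i hi
    have h4 := hf i hi
    rw [hfab, h3 _ _ _ hb', h1, h1, div_eq_zero_iff] at h4
    have h5 : io E (b : MvPolynomial ℕ E) * io E (pderiv i a) -
        io E a * io E (pderiv i (b : MvPolynomial ℕ E)) = 0 := by
      rcases h4 with h4 | h4
      · exact h4
      · exact absurd h4 (pow_ne_zero 2 hb')
    rw [← map_mul, ← map_mul, ← map_sub,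
      map_eq_zero_iff _ (IsFractionRing.injective (MvPolynomial ℕ E) (FF E)), sub_eq_zero] at h5
    have h6 : (b : MvPolynomial ℕ E) ∣ pderiv i (b : MvPolynomial ℕ E) := by
      have h8 : (b : MvPolynomial ℕ E) ∣ a * pderiv i (b : MvPolynomial ℕ E) :=
        Dvd.intro _ h5
      exact (IsRelPrime.symm hrel).dvd_of_dvd_mul_left h8
    have h7 := pderiv_of_dvd i _ h6
    rw [h7, mul_zero] at h5
    exact ⟨(mul_eq_zero.mp h5).resolve_left hb, h7⟩
  refine ⟨a, b, hb, ?_, ?_, hfab⟩
  · intro i hi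
    by_contra hG
    exact pderiv_ne i a (hkey i hG).1 hi
  · intro i hi
    by_contra hG
    exact pderiv_ne i _ (hkey i hG).2 hi

theorem fgz (hD : DerStmt) : FgzStmt := by
  intro E _ _ G f
  refine ⟨⟨fg0_form hD G f, ?_⟩, ?_⟩
  · rintro ⟨a, b, hb, ha, hbv, rfl⟩
    exact mem_fg0 hD G hb ha hbv
  · intro hf
    obtain ⟨a, b, hb, ha, hbv, hfab⟩ := fg0_form hD G f hf
    by_cases ha0 : a = 0
    · rw [hfab, ha0, map_zero, zero_div, inv_zero]
      intro i _
      exact map_zero _
    · rw [hfab, inv_div]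
      exact mem_fg0 hD G ha0 hbv ha

end Pool.Agent.PW.H85
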